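import Pool.Agent.H67L.Exact

/-!
The asymptotic behaviour of the optimal ratio of List Scheduling algorithms.
-/

set_option autoImplicit false

namespace Pool.Agent.H67L

open Pool.Agent.H78.Sched Pool.Agent.H67S Filter Topology
open Real (goldenRatio log)

variable {m : ℕ}

theorem factor (c : ℝ) :
    c - (c - 1) ^ 2 = (goldenRatio + 1 - c) * (c - 2 + goldenRatio) := by
  linear_combination (-1 : ℝ) * Real.goldenRatio_sq

theorem Cond.ineq {c : ℝ} (hc : 1 < c) (h : Cond m c) (K : ℕ) :
    (goldenRatio + 1 - c) * (c - 2 + goldenRatio) ≤ (c - 1) * (K / m) + c * (1 / c) ^ K := by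
  rw [← factor]
  have h1 := geom_eq hc K
  have h2 := mul_le_mul_of_nonneg_left (h K) (by linarith : 0 ≤ c - 1)
  rw [h1] at h2
  linarith

/-- A sufficient condition. -/
theorem cond_of_log (hm : 2 ≤ m) {c a : ℝ} (hc : 1 < c) (ha : a = (c - 1) / log c)
    (h : m * ((goldenRatio + 1 - c) * (c - 2 + goldenRatio)) ≤
      a * (1 + log m - log a) + (c - 1)) : Cond m c := by
  have hm0 : (0 : ℝ) < m := by exact_mod_cast (by omega : 0 < m)
  have hlc : 0 < log c := Real.log_pos hc
  have hc0 : 0 < c := by linarith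
  have ha0 : 0 < a := by rw [ha]; exact div_pos (by linarith) hlc
  refine cond_of hm hc (fun K => ?_)
  set E : ℝ := m * (c * (1 / c) ^ K) with hE
  have hE0 : 0 < E := by positivity
  have hlogE : log E = log m + log c - K * log c := by
    rw [hE, Real.log_mul hm0.ne' (by positivity), Real.log_mul hc0.ne' (by positivity),
      Real.log_pow, one_div, Real.log_inv]
    ring
  have h1 : log (E / a) ≤ E / a - 1 := by
    have := Real.log_le_sub_one_of_pos (show 0 < E / a by positivity)
    exact this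
  rw [Real.log_div hE0.ne' ha0.ne', hlogE] at h1
  have h2 : a * (1 + (log m + log c - K * log c - log a)) ≤ E := by
    have h3 : 1 + (log m + log c - K * log c - log a) ≤ E / a := by linarith
    have h4 := mul_le_mul_of_nonneg_left h3 ha0.le
    rwa [mul_div_cancel₀ _ ha0.ne'] at h4
  have h3 : a * log c = c - 1 := by
    rw [ha]
    field_simp
  have h4 : a * (1 + (log m + log c - K * log c - log a)) =
      a * (1 + log m - log a) + (c - 1) - K * (c - 1) := by
    rw [← h3]
    ring
  rw [h4] at h2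
  have h5 : m * ((goldenRatio + 1 - c) * (c - 2 + goldenRatio)) ≤
      m * ((c - 1) * (K / m) + c * (1 / c) ^ K) := by
    have h6 : (m : ℝ) * ((c - 1) * (K / m) + c * (1 / c) ^ K) = K * (c - 1) + E := by
      rw [hE]
      field_simp
    rw [h6]
    linarith
  have h6 := le_of_mul_le_mul_left h5 hm0
  rw [← factor] at h6
  linarith

/-- A necessary condition. -/
theorem Cond.log_ineq (hm : 2 ≤ m) {c : ℝ} (hc : 1 < c) (h : Cond m c) :
    m * ((goldenRatio + 1 - c) * (c - 2 + goldenRatio)) ≤
      (c - 1) * (log m / log c + 1) + c := by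
  have hm0 : (0 : ℝ) < m := by exact_mod_cast (by omega : 0 < m)
  have hm1 : (1 : ℝ) ≤ m := by exact_mod_cast (by omega : 1 ≤ m)
  have hlc : 0 < log c := Real.log_pos hc
  have hc0 : 0 < c := by linarith
  have hlm : 0 ≤ log m := Real.log_nonneg hm1
  set K : ℕ := ⌈log m / log c⌉₊ with hK
  have hK1 : log m / log c ≤ K := Nat.le_ceil _
  have hK2 : (K : ℝ) ≤ log m / log c + 1 := (Nat.ceil_lt_add_one (by positivity)).le
  have h1 := h.ineq hc K
  have h2 : (m : ℝ) ≤ c ^ K := by
    have h3 : log m ≤ K * log c := by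
      rwa [div_le_iff₀ hlc] at hK1
    rw [← Real.log_pow] at h3
    exact (Real.log_le_log_iff hm0 (by positivity)).1 h3
  have h3 : (m : ℝ) * (c * (1 / c) ^ K) ≤ c := by
    rw [one_div, inv_pow]
    have h4 : (0 : ℝ) < c ^ K := by positivity
    have h5 : (m : ℝ) * (c * (c ^ K)⁻¹) = c * (m / c ^ K) := by ring
    rw [h5]
    have h6 : (m : ℝ) / c ^ K ≤ 1 := by rwa [div_le_one h4]
    calc c * (m / c ^ K) ≤ c * 1 := mul_le_mul_of_nonneg_left h6 hc0.le
      _ = c := mul_one c
  have h4 := mul_le_mul_of_nonneg_left h1 hm0.le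
  have h5 : (m : ℝ) * ((c - 1) * (K / m) + c * (1 / c) ^ K) =
      (c - 1) * K + m * (c * (1 / c) ^ K) := by field_simp
  rw [h5] at h4
  have h6 := mul_le_mul_of_nonneg_left hK2 (by linarith : 0 ≤ c - 1)
  linarith

theorem golden_bounds : 1.618 < goldenRatio ∧ goldenRatio < 1.6181 := by
  constructor
  · have h5 : (2.236 : ℝ) < Real.sqrt 5 := by
      rw [show (2.236 : ℝ) = Real.sqrt (2.236 ^ 2) by rw [Real.sqrt_sq (by norm_num)]]
      exact Real.sqrt_lt_sqrt (by norm_num) (by norm_num)
    rw [goldenRatio]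
    linarith
  · have h5 : Real.sqrt 5 < 2.2361 := by
      rw [show (2.2361 : ℝ) = Real.sqrt (2.2361 ^ 2) by rw [Real.sqrt_sq (by norm_num)]]
      exact Real.sqrt_lt_sqrt (by norm_num) (by norm_num)
    rw [goldenRatio]
    linarith

theorem RL_lt (hm : 2 ≤ m) : RL m ≤ 1 + goldenRatio := by
  refine RL_le_of hm (by linarith [golden_bounds.1]) (cond_of hm (by linarith [golden_bounds.1]) ?_)
  intro K
  have h1 := factor (1 + goldenRatio)
  have h2 : (goldenRatio + 1 - (1 + goldenRatio)) * (1 + goldenRatio - 2 + goldenRatio) = 0 := by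
    ring
  rw [h2] at h1
  have h3 : 0 ≤ (1 + goldenRatio - 1) * ((K : ℝ) / m) + (1 + goldenRatio) *
      (1 / (1 + goldenRatio)) ^ K := by
    have := Real.goldenRatio_pos
    have h4 : (0 : ℝ) ≤ (K : ℝ) / m := by positivity
    have h5 : 0 ≤ (1 + goldenRatio - 1) * ((K : ℝ) / m) := mul_nonneg (by linarith) h4
    positivity
  linarith

theorem RL_ge_three_halves (hm : 2 ≤ m) : 3 / 2 ≤ RL m := by
  have h := RL_ge hm
  have hm2 : (2 : ℝ) ≤ m := by exact_mod_cast hm
  have hm3 : 1 / (m : ℝ) ≤ 1 / 2 := one_div_le_one_div_of_le (by norm_num) hm2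
  linarith

theorem tendsto_log_nat : Tendsto (fun m : ℕ => log (m : ℝ)) atTop atTop :=
  Real.tendsto_log_atTop.comp tendsto_natCast_atTop_atTop

theorem tendsto_log_div_nat : Tendsto (fun m : ℕ => log (m : ℝ) / m) atTop (𝓝 0) := by
  have h := (Real.isLittleO_log_id_atTop).tendsto_div_nhds_zero
  exact h.comp tendsto_natCast_atTop_atTop

theorem tendsto_inv_nat : Tendsto (fun m : ℕ => (1 : ℝ) / m) atTop (𝓝 0) := by
  simpa using tendsto_one_div_atTop_nhds_zero_nat (𝕜 := ℝ)

theorem tendsto_inv_log_nat : Tendsto (fun m : ℕ => (1 : ℝ) / log m) atTop (𝓝 0) := by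
  have := tendsto_log_nat.inv_tendsto_atTop
  simp only [one_div]
  exact this

theorem tendsto_RL : Tendsto RL atTop (𝓝 (1 + goldenRatio)) := by
  obtain ⟨hφ1, hφ2⟩ := golden_bounds
  have hl : 0 < log (3 / 2) := Real.log_pos (by norm_num)
  -- the upper bound for the gap
  have hb : Tendsto (fun m : ℕ => 1 + goldenRatio -
      (2 / log (3 / 2) * (log (m : ℝ) / m) + 5 * (1 / m))) atTop (𝓝 (1 + goldenRatio)) := by
    have h1 := (tendsto_log_div_nat.const_mul (2 / log (3 / 2))).add (tendsto_inv_nat.const_mul 5)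
    have h2 := (tendsto_const_nhds (x := 1 + goldenRatio)).sub h1
    simpa using h2
  refine tendsto_of_tendsto_of_tendsto_of_le_of_le' hb tendsto_const_nhds ?_ ?_
  · filter_upwards [eventually_ge_atTop 2] with m hm
    have hm0 : (0 : ℝ) < m := by exact_mod_cast (by omega : 0 < m)
    have hm1 : (1 : ℝ) ≤ m := by exact_mod_cast (by omega : 1 ≤ m)
    have h1 := Cond.log_ineq hm (one_lt_RL hm) (cond_RL hm)
    have h2 := RL_ge_three_halves hm
    have h3 := RL_lt hm
    set c := RL m with hc
    have hlm : 0 ≤ log (m : ℝ) := Real.log_nonneg hm1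
    have hlc : log (3 / 2) ≤ log c := Real.log_le_log (by norm_num) h2
    have h4 : log (m : ℝ) / log c ≤ log m / log (3 / 2) := by
      apply div_le_div_of_nonneg_left hlm hl hlc
    have h5 : (goldenRatio + 1 - c) ≤ (goldenRatio + 1 - c) * (c - 2 + goldenRatio) := by
      nlinarith
    have h6 : m * (goldenRatio + 1 - c) ≤ m * ((goldenRatio + 1 - c) * (c - 2 + goldenRatio)) :=
      mul_le_mul_of_nonneg_left h5 hm0.le
    have h7 : (c - 1) * (log m / log c + 1) + c ≤ 2 * (log m / log (3 / 2)) + 5 := by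
      have h8 : 0 ≤ log (m : ℝ) / log c := div_nonneg hlm (hl.le.trans hlc)
      have h9 : (c - 1) * (log m / log c) ≤ 2 * (log m / log c) :=
        mul_le_mul_of_nonneg_right (by linarith) h8
      nlinarith
    have h8 : m * (goldenRatio + 1 - c) ≤ m * (2 / log (3 / 2) * (log (m : ℝ) / m) + 5 * (1 / m)) := by
      have h9 : (m : ℝ) * (2 / log (3 / 2) * (log (m : ℝ) / m) + 5 * (1 / m)) =
          2 * (log m / log (3 / 2)) + 5 := by field_simp
      rw [h9]
      linarith
    have := le_of_mul_le_mul_left h8 hm0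
    linarith
  · filter_upwards [eventually_ge_atTop 2] with m hm
    exact RL_lt hm

/-- The constant. -/
theorem const_eq : goldenRatio / log (1 + goldenRatio) / (2 * goldenRatio - 1) =
    goldenRatio / (2 * Real.sqrt 5 * log goldenRatio) := by
  have h1 : log (1 + goldenRatio) = 2 * log goldenRatio := by
    have h2 : 1 + goldenRatio = goldenRatio ^ 2 := by rw [Real.goldenRatio_sq]; ring
    rw [h2, Real.log_pow]
    norm_num
  have h2 : 2 * goldenRatio - 1 = Real.sqrt 5 := by
    rw [goldenRatio]; ring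
  rw [h1, h2, div_div]
  congr 1
  ring

/-- The asymptotic formula for the gap. -/
theorem tendsto_gap : Tendsto (fun m : ℕ => (1 + goldenRatio - RL m) * m / log m) atTop
    (𝓝 (goldenRatio / (2 * Real.sqrt 5 * log goldenRatio))) := by
  obtain ⟨hφ1, hφ2⟩ := golden_bounds
  rw [← const_eq]
  have hlφ : 0 < log (1 + goldenRatio) := Real.log_pos (by linarith)
  set φ := goldenRatio with hφ
  set C : ℝ := φ / log (1 + φ) / (2 * φ - 1) with hC
  have h2φ : 0 < 2 * φ - 1 := by linarith
  have hev : ∀ᶠ m : ℕ in atTop, 2 ≤ m := eventually_ge_atTop 2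
  refine tendsto_order.2 ⟨fun s hs => ?_, fun s hs => ?_⟩
  · -- the lower bound for the gap
    obtain ⟨t, hst, htC⟩ := exists_between hs
    have hc : Tendsto (fun m : ℕ => 1 + φ - t * (log (m : ℝ) / m)) atTop (𝓝 (1 + φ)) := by
      have := (tendsto_const_nhds (x := 1 + φ)).sub (tendsto_log_div_nat.const_mul t)
      simpa using this
    have hlogc : Tendsto (fun m : ℕ => log (1 + φ - t * (log (m : ℝ) / m))) atTop
        (𝓝 (log (1 + φ))) := hc.log (by linarith)
    have ha : Tendsto (fun m : ℕ => (1 + φ - t * (log (m : ℝ) / m) - 1) /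
        log (1 + φ - t * (log (m : ℝ) / m))) atTop (𝓝 ((1 + φ - 1) / log (1 + φ))) :=
      (hc.sub_const 1).div hlogc hlφ.ne'
    have ha0 : (1 + φ - 1) / log (1 + φ) ≠ 0 := by
      apply div_ne_zero _ hlφ.ne'
      linarith
    have hloga := ha.log ha0
    -- both sides divided by `log m`
    have hF : Tendsto (fun m : ℕ => (1 + φ - t * (log (m : ℝ) / m) - 1) /
        log (1 + φ - t * (log (m : ℝ) / m)) * (1 + (1 - log ((1 + φ - t * (log (m : ℝ) / m) - 1) /
        log (1 + φ - t * (log (m : ℝ) / m)))) * (1 / log m)) +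
        (1 + φ - t * (log (m : ℝ) / m) - 1) * (1 / log m)) atTop
        (𝓝 ((1 + φ - 1) / log (1 + φ) * (1 + (1 - log ((1 + φ - 1) / log (1 + φ))) * 0) +
          (1 + φ - 1) * 0)) :=
      (ha.mul (tendsto_const_nhds.add ((tendsto_const_nhds.sub hloga).mul
        tendsto_inv_log_nat))).add ((hc.sub_const 1).mul tendsto_inv_log_nat)
    have hG : Tendsto (fun m : ℕ => t * (1 + φ - t * (log (m : ℝ) / m) - 2 + φ)) atTop
        (𝓝 (t * (1 + φ - 2 + φ))) := ((hc.sub_const 2).add_const φ).const_mul t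
    have hlt : t * (1 + φ - 2 + φ) <
        (1 + φ - 1) / log (1 + φ) * (1 + (1 - log ((1 + φ - 1) / log (1 + φ))) * 0) +
          (1 + φ - 1) * 0 := by
      have h1 : t * (2 * φ - 1) < C * (2 * φ - 1) := mul_lt_mul_of_pos_right htC h2φ
      have h2 : C * (2 * φ - 1) = φ / log (1 + φ) := by
        rw [hC, div_mul_cancel₀ _ h2φ.ne']
      rw [h2] at h1
      have h3 : 1 + φ - 1 = φ := by ring
      rw [h3]
      simp only [mul_zero, add_zero, mul_one]
      linarith
    have e1 := hG.eventually_lt hF hlt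
    have e2 : ∀ᶠ m : ℕ in atTop, (1 : ℝ) < 1 + φ - t * (log (m : ℝ) / m) :=
      hc.eventually (lt_mem_nhds (by linarith))
    have e3 : ∀ᶠ m : ℕ in atTop, (0 : ℝ) < log (m : ℝ) := tendsto_log_nat.eventually_gt_atTop 0
    filter_upwards [hev, e1, e2, e3] with m hm h1 h2 h3
    have hm0 : (0 : ℝ) < m := by exact_mod_cast (by omega : 0 < m)
    set c : ℝ := 1 + φ - t * (log (m : ℝ) / m) with hcdef
    set a : ℝ := (c - 1) / log c with hadef
    have hcond : Cond m c := by
      refine cond_of_log hm h2 hadef ?_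
      have h4 := mul_lt_mul_of_pos_right h1 h3
      have h5 : (m : ℝ) * ((φ + 1 - c) * (c - 2 + φ)) = t * (c - 2 + φ) * log m := by
        rw [hcdef]
        field_simp
        ring
      have h6 : (a * (1 + (1 - log a) * (1 / log (m : ℝ))) + (c - 1) * (1 / log m)) * log m =
          a * (1 + log m - log a) + (c - 1) := by
        field_simp
        ring
      rw [h6] at h4
      rw [h5]
      exact h4.le
    have h4 := RL_le_of hm h2 hcond
    have h5 : t * (log (m : ℝ) / m) ≤ 1 + φ - RL m := by linarith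
    have h6 : t ≤ (1 + φ - RL m) * m / log m := by
      rw [le_div_iff₀ h3]
      have h7 := mul_le_mul_of_nonneg_right h5 hm0.le
      have h8 : t * (log (m : ℝ) / m) * m = t * log m := by field_simp
      linarith
    linarith
  · -- the upper bound for the gap
    have hR := tendsto_RL
    have hlR : Tendsto (fun m : ℕ => log (RL m)) atTop (𝓝 (log (1 + φ))) :=
      hR.log (by linarith)
    have hU : Tendsto (fun m : ℕ => ((RL m - 1) / log (RL m) + (2 * RL m - 1) * (1 / log (m : ℝ))) /
        (RL m - 2 + φ)) atTop (𝓝 (((1 + φ - 1) / log (1 + φ) + (2 * (1 + φ) - 1) * 0) /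
          (1 + φ - 2 + φ))) :=
      (((hR.sub_const 1).div hlR hlφ.ne').add
        (((hR.const_mul 2).sub_const 1).mul tendsto_inv_log_nat)).div
        ((hR.sub_const 2).add_const φ) (by linarith)
    have hlt : ((1 + φ - 1) / log (1 + φ) + (2 * (1 + φ) - 1) * 0) / (1 + φ - 2 + φ) < s := by
      have h3 : 1 + φ - 1 = φ := by ring
      have h4 : 1 + φ - 2 + φ = 2 * φ - 1 := by ring
      rw [h3, h4, mul_zero, add_zero]
      exact hs
    have e1 : ∀ᶠ m : ℕ in atTop, ((RL m - 1) / log (RL m) + (2 * RL m - 1) * (1 / log (m : ℝ))) /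
        (RL m - 2 + φ) < s := hU.eventually (gt_mem_nhds hlt)
    have e3 : ∀ᶠ m : ℕ in atTop, (0 : ℝ) < log (m : ℝ) := tendsto_log_nat.eventually_gt_atTop 0
    filter_upwards [hev, e1, e3] with m hm h1 h3
    have hm0 : (0 : ℝ) < m := by exact_mod_cast (by omega : 0 < m)
    have h4 := Cond.log_ineq hm (one_lt_RL hm) (cond_RL hm)
    have h5 := RL_ge_three_halves hm
    have hlc : 0 < log (RL m) := Real.log_pos (one_lt_RL hm)
    have h6 : 0 < RL m - 2 + φ := by linarith
    refine lt_of_le_of_lt ?_ h1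
    rw [div_le_div_iff₀ h3 h6]
    have h7 : ((RL m - 1) / log (RL m) + (2 * RL m - 1) * (1 / log (m : ℝ))) * log m =
        (RL m - 1) * (log m / log (RL m) + 1) + RL m := by
      field_simp
      ring
    rw [h7]
    have h8 : (1 + φ - RL m) * m * (RL m - 2 + φ) =
        m * ((φ + 1 - RL m) * (RL m - 2 + φ)) := by ring
    rw [h8]
    exact h4

end Pool.Agent.H67L
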