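import Pool.Agent.H78.Sched.Defs

/-!
Online scheduling with rejection, restricted to the algorithms that use List Scheduling.
-/

set_option autoImplicit false

namespace Pool.Agent.H67L

open Pool.Agent.H78.Sched

/-- The algorithm `A` uses List Scheduling: every job it accepts is put on a machine whose load is
smallest at that time. The rule of rejection is arbitrary. -/
def ListScheduling (m : ℕ) (A : List (ℝ × ℝ) → Option (Fin m)) : Prop :=
  ∀ (I : List (ℝ × ℝ)) (j : ℝ × ℝ) (i : Fin m), (∀ x ∈ I ++ [j], 0 < x.1 ∧ 0 < x.2) →
    A (I ++ [j]) = some i → ∀ i' : Fin m, load I (run A I) i ≤ load I (run A I) i'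

/-- The optimal competitive ratio of the algorithms that use List Scheduling. -/
noncomputable def RL (m : ℕ) : ℝ :=
  sInf {c | ∃ A : List (ℝ × ℝ) → Option (Fin m), ListScheduling m A ∧ Competitive m A c}

end Pool.Agent.H67L
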