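import Pool.Agent.H67L.Low
import Pool.Agent.H67S.UpMain

/-!
The exact value of the optimal competitive ratio of List Scheduling algorithms.
-/

set_option autoImplicit false

namespace Pool.Agent.H67L

open Pool.Agent.H78.Sched Pool.Agent.H67S
open Pool.Agent.H69.Sched (amin amin_le comp_nonneg R_bddBelow)

variable {m : ℕ}

/-- The loads of the run are the loads of the state. -/
theorem run_load (hm : 0 < m) (c : ℝ) (I : List (ℝ × ℝ)) (i : Fin m) :
    load I (run (alg hm c) I) i = (state hm c I).a i := by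
  induction I using List.reverseRecOn with
  | nil => simp [run, load, state_nil]
  | append_singleton I j ih =>
    rw [load_run_snoc, alg_snoc, state_snoc, ih]
    unfold dec nxt
    split_ifs <;> simp_all

/-- The algorithm uses List Scheduling. -/
theorem alg_listScheduling (hm : 0 < m) (c : ℝ) : ListScheduling m (alg hm c) := by
  intro I j i _ hi i'
  rw [run_load, run_load]
  rw [alg_snoc] at hi
  unfold dec at hi
  split_ifs at hi
  rw [Option.some.injEq] at hi
  rw [← hi]
  exact amin_le hm _ i'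

/-- The condition which characterises the optimal ratio. -/
def Cond (m : ℕ) (c : ℝ) : Prop :=
  ∀ K : ℕ, ∑ k ∈ Finset.range K, (1 / c) ^ k ≤ c - 1 + K / m

theorem RL_bddBelow (m : ℕ) :
    BddBelow {c | ∃ A : List (ℝ × ℝ) → Option (Fin m), ListScheduling m A ∧ Competitive m A c} := by
  refine ⟨0, ?_⟩
  rintro c ⟨A, _, hA⟩
  exact comp_nonneg hA

theorem RL_le_of (hm : 2 ≤ m) {c : ℝ} (hc : 1 < c) (h : Cond m c) : RL m ≤ c :=
  csInf_le (RL_bddBelow m) ⟨alg (by omega) c, alg_listScheduling _ _, competitive_of hm hc h⟩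

theorem R_le_RL (hm : 2 ≤ m) : R m ≤ RL m := by
  apply csInf_le_csInf (R_bddBelow m)
  · refine ⟨3, alg (by omega) 3, alg_listScheduling _ _, competitive_of hm (by norm_num) ?_⟩
    intro K
    have h1 := geom_eq (c := 3) (by norm_num) K
    have h2 : (0 : ℝ) ≤ 3 * (1 / 3) ^ K := by positivity
    have h3 : (0 : ℝ) ≤ (K : ℝ) / m := by positivity
    linarith
  · rintro c ⟨A, _, hA⟩
    exact ⟨A, hA⟩

theorem nonempty_LS (hm : 2 ≤ m) : {c | ∃ A : List (ℝ × ℝ) → Option (Fin m),
    ListScheduling m A ∧ Competitive m A c}.Nonempty := by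
  refine ⟨3, alg (by omega) 3, alg_listScheduling _ _, competitive_of hm (by norm_num) ?_⟩
  intro K
  have h1 := geom_eq (c := 3) (by norm_num) K
  have h2 : (0 : ℝ) ≤ 3 * (1 / 3) ^ K := by positivity
  have h3 : (0 : ℝ) ≤ (K : ℝ) / m := by positivity
  linarith

/-- The inequalities hold above the optimal ratio. -/
theorem cond_above (hm : 2 ≤ m) {c : ℝ} (hc : RL m < c) (hc1 : 1 < c) {K : ℕ} (hK : 1 ≤ K)
    (hKm : K ≤ m) : ∑ k ∈ Finset.range K, (1 / c) ^ k ≤ c - 1 + K / m := by
  obtain ⟨c', ⟨A, hLS, hA⟩, hc'⟩ := exists_lt_of_csInf_lt (nonempty_LS hm) hc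
  exact lower hLS hA hc' hc1 hK hKm

theorem RL_ge (hm : 2 ≤ m) : 2 - 1 / (m : ℝ) ≤ RL m := by
  have hm2 : (2 : ℝ) ≤ m := by exact_mod_cast hm
  have hm3 : 1 / (m : ℝ) ≤ 1 / 2 := one_div_le_one_div_of_le (by norm_num) hm2
  by_contra h
  push Not at h
  obtain ⟨c, hc1, hc2⟩ := exists_between (show max (RL m) 1 < 2 - 1 / (m : ℝ) from
    max_lt h (by linarith))
  have h1 := cond_above hm (lt_of_le_of_lt (le_max_left _ _) hc1)
    (lt_of_le_of_lt (le_max_right _ _) hc1) le_rfl (by omega)
  simp at h1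
  rw [one_div] at hc2
  linarith

theorem one_lt_RL (hm : 2 ≤ m) : 1 < RL m := by
  have h := RL_ge hm
  have hm2 : (2 : ℝ) ≤ m := by exact_mod_cast hm
  have hm3 : 1 / (m : ℝ) ≤ 1 / 2 := one_div_le_one_div_of_le (by norm_num) hm2
  linarith

theorem cond_RL (hm : 2 ≤ m) : Cond m (RL m) := by
  have h1 := one_lt_RL hm
  have hm0 : (0 : ℝ) < m := by exact_mod_cast (by omega : 0 < m)
  -- the inequalities for `K ≤ m`
  have key : ∀ K : ℕ, K ≤ m → ∑ k ∈ Finset.range K, (1 / RL m) ^ k ≤ RL m - 1 + K / m := by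
    intro K hKm
    rcases Nat.eq_zero_or_pos K with rfl | hK
    · simp
      linarith
    by_contra hcon
    push Not at hcon
    have hcont : ContinuousAt (fun c : ℝ => ∑ k ∈ Finset.range K, (1 / c) ^ k) (RL m) := by
      apply tendsto_finsetSum
      intro k _
      exact ((continuousAt_const.div continuousAt_id (by simp; linarith)).pow k)
    have hcont2 : ContinuousAt (fun c : ℝ => c - 1 + (K : ℝ) / m) (RL m) := by fun_prop
    have hev := hcont2.eventually_lt hcont hcon
    have hev2 : ∀ᶠ c in nhdsWithin (RL m) (Set.Ioi (RL m)),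
        c - 1 + (K : ℝ) / m < ∑ k ∈ Finset.range K, (1 / c) ^ k := hev.filter_mono nhdsWithin_le_nhds
    obtain ⟨c, hc, hcm⟩ := (hev2.and self_mem_nhdsWithin).exists
    have := cond_above hm hcm (lt_trans h1 hcm) hK hKm
    linarith
  intro K
  rcases Nat.lt_or_ge m K with hK | hK
  · -- `K > m`
    have h2 := key m le_rfl
    have h3 : (1 / RL m) ^ m ≤ 1 / m := by
      rw [one_div, inv_pow, ← one_div]
      apply one_div_le_one_div_of_le hm0
      have h4 : (-2 : ℝ) ≤ 1 - 1 / m := by
        have : 1 / (m : ℝ) ≤ 1 := by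
          rw [div_le_one hm0]; exact_mod_cast (by omega : 1 ≤ m)
        linarith
      have h5 := one_add_mul_le_pow h4 m
      have h6 : (1 : ℝ) + m * (1 - 1 / m) = m := by field_simp; ring
      rw [h6] at h5
      refine h5.trans ?_
      apply pow_le_pow_left₀
      · have : 1 / (m : ℝ) ≤ 1 := by
          rw [div_le_one hm0]; exact_mod_cast (by omega : 1 ≤ m)
        linarith
      · have := RL_ge hm
        linarith
    have h4 : ∀ j : ℕ, ∑ k ∈ Finset.range (m + j), (1 / RL m) ^ k ≤
        RL m - 1 + ((m + j : ℕ) : ℝ) / m := by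
      intro j
      induction j with
      | zero => simpa using h2
      | succ j ih =>
        rw [← add_assoc, Finset.sum_range_succ]
        have h5 : (1 / RL m) ^ (m + j) ≤ 1 / m := by
          rw [pow_add]
          have h6 : (1 / RL m) ^ j ≤ 1 := by
            apply pow_le_one₀ (by positivity)
            rw [div_le_one (by linarith)]
            linarith
          have h7 : 0 ≤ (1 / RL m) ^ m := by positivity
          calc (1 / RL m) ^ m * (1 / RL m) ^ j ≤ (1 / RL m) ^ m * 1 :=
                mul_le_mul_of_nonneg_left h6 h7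
            _ ≤ 1 / m := by rw [mul_one]; exact h3
        have h6 : (((m + j + 1 : ℕ)) : ℝ) / m = ((m + j : ℕ) : ℝ) / m + 1 / m := by
          push_cast
          ring
        rw [h6]
        linarith
    have := h4 (K - m)
    rwa [Nat.add_sub_cancel' hK.le] at this
  · exact key K hK

/-- The exact value. -/
theorem RL_isLeast (hm : 2 ≤ m) : IsLeast {c : ℝ | 1 < c ∧ Cond m c} (RL m) :=
  ⟨⟨one_lt_RL hm, cond_RL hm⟩, fun _ hc => RL_le_of hm hc.1 hc.2⟩

/-- The infimum is attained. -/
theorem RL_attained (hm : 2 ≤ m) : ∃ A : List (ℝ × ℝ) → Option (Fin m),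
    ListScheduling m A ∧ Competitive m A (RL m) :=
  ⟨alg (by omega) (RL m), alg_listScheduling _ _, competitive_of hm (one_lt_RL hm) (cond_RL hm)⟩

end Pool.Agent.H67L
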