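import Pool.Agent.H67L.Exact

/-!
The values for `m = 2, 3, 4` and a numerical value for `m = 5`.
-/

set_option autoImplicit false

namespace Pool.Agent.H67L

open Pool.Agent.H78.Sched Pool.Agent.H67S

variable {m : ℕ}

theorem RL_eq_of_sq (hm : 2 ≤ m) {c : ℝ} (hc : 1 < c)
    (h2 : 1 + 1 / c = c - 1 + 2 / m) (h3 : (m : ℝ) ≤ c ^ 2) : RL m = c := by
  have hm0 : (0 : ℝ) < m := by exact_mod_cast (by omega : 0 < m)
  have hm2 : (2 : ℝ) ≤ m := by exact_mod_cast hm
  have hc0 : 0 < c := by linarith
  have h1m : 1 / (m : ℝ) ≤ 1 / 2 := one_div_le_one_div_of_le (by norm_num) hm2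
  have h1m0 : 0 < 1 / (m : ℝ) := by positivity
  have h2m : 2 / (m : ℝ) = 2 * (1 / m) := by ring
  apply le_antisymm
  · refine RL_le_of hm hc ?_
    have key : ∀ j : ℕ, ∑ k ∈ Finset.range (2 + j), (1 / c) ^ k ≤ c - 1 + ((2 + j : ℕ) : ℝ) / m := by
      intro j
      induction j with
      | zero =>
        simp only [add_zero, Finset.sum_range_succ, Finset.sum_range_zero, pow_zero, pow_one,
          zero_add]
        push_cast
        exact h2.le
      | succ j ih =>
        rw [← add_assoc, Finset.sum_range_succ]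
        have h4 : (1 / c) ^ (2 + j) ≤ 1 / m := by
          rw [pow_add]
          have h5 : (1 / c) ^ j ≤ 1 := by
            apply pow_le_one₀ (by positivity)
            rw [div_le_one hc0]
            exact hc.le
          have h6 : (1 / c) ^ 2 ≤ 1 / m := by
            rw [one_div, inv_pow, ← one_div]
            exact one_div_le_one_div_of_le hm0 h3
          have h7 : 0 ≤ (1 / c) ^ 2 := by positivity
          calc (1 / c) ^ 2 * (1 / c) ^ j ≤ (1 / c) ^ 2 * 1 := mul_le_mul_of_nonneg_left h5 h7
            _ ≤ 1 / m := by rw [mul_one]; exact h6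
        have h8 : ((2 + j + 1 : ℕ) : ℝ) / m = ((2 + j : ℕ) : ℝ) / m + 1 / m := by
          push_cast
          ring
        rw [h8]
        linarith
    intro K
    rcases Nat.lt_or_ge K 2 with h | h
    · have hK : K = 0 ∨ K = 1 := by omega
      rcases hK with rfl | rfl
      · simp
        linarith
      · simp only [Finset.sum_range_succ, Finset.sum_range_zero, pow_zero, zero_add]
        push_cast
        by_contra hcon
        push Not at hcon
        -- `c < 2 - 1/m` contradicts `1 + 1/c = c - 1 + 2/m`
        have h5 : c * (1 / c) = 1 := mul_one_div_cancel hc0.ne'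
        have h6 : c * (1 + 1 / c) = c * (c - 1 + 2 / m) := by rw [h2]
        rw [h2m] at h6
        nlinarith
    · have := key (K - 2)
      rwa [Nat.add_sub_cancel' h] at this
  · have h4 := cond_RL hm 2
    have h5 := one_lt_RL hm
    simp only [Finset.sum_range_succ, Finset.sum_range_zero, pow_zero, pow_one, zero_add] at h4
    push_cast at h4
    by_contra hcon
    push Not at hcon
    have h6 : 1 / c < 1 / RL m := one_div_lt_one_div_of_lt (by linarith) hcon
    linarith

theorem RL_two : RL 2 = Real.goldenRatio := by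
  refine RL_eq_of_sq le_rfl Real.one_lt_goldenRatio ?_ ?_
  · have h := Real.goldenRatio_sq
    have h0 := Real.goldenRatio_pos
    have h1 : 1 / Real.goldenRatio = Real.goldenRatio - 1 := by
      rw [div_eq_iff h0.ne']
      linear_combination -h
    rw [h1]
    push_cast
    ring
  · have h := Real.goldenRatio_sq
    have h0 := Real.one_lt_goldenRatio
    push_cast
    linarith

theorem RL_three : RL 3 = (2 + Real.sqrt 13) / 3 := by
  have h13 : Real.sqrt 13 ^ 2 = 13 := Real.sq_sqrt (by norm_num)
  have hs : (3.6 : ℝ) < Real.sqrt 13 := by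
    rw [show (3.6 : ℝ) = Real.sqrt (3.6 ^ 2) by rw [Real.sqrt_sq (by norm_num)]]
    exact Real.sqrt_lt_sqrt (by norm_num) (by norm_num)
  refine RL_eq_of_sq (by norm_num) (by linarith) ?_ ?_
  · push_cast
    have : (0 : ℝ) < 2 + Real.sqrt 13 := by linarith
    field_simp
    nlinarith
  · push_cast
    nlinarith

theorem RL_four : RL 4 = 2 := by
  refine RL_eq_of_sq (by norm_num) (by norm_num) ?_ ?_ <;> norm_num

theorem RL_five : 2.102 < RL 5 ∧ RL 5 ≤ 2.1021 := by
  constructor
  · by_contra hcon
    push Not at hcon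
    have h4 := cond_RL (m := 5) (by norm_num) 3
    have h5 := one_lt_RL (m := 5) (by norm_num)
    simp only [Finset.sum_range_succ, Finset.sum_range_zero, pow_zero, pow_one, zero_add] at h4
    push_cast at h4
    have h6 : (1 : ℝ) / 2.102 ≤ 1 / RL 5 := one_div_le_one_div_of_le (by linarith) hcon
    have h7 : ((1 : ℝ) / 2.102) ^ 2 ≤ (1 / RL 5) ^ 2 :=
      pow_le_pow_left₀ (by norm_num) h6 2
    norm_num at h4 h6 h7
    linarith
  · refine RL_le_of (by norm_num) (by norm_num) ?_
    intro K
    rcases Nat.lt_or_ge K 5 with h | h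
    · interval_cases K <;> norm_num [Finset.sum_range_succ]
    · have h1 := geom_eq (c := 2.1021) (by norm_num) K
      have h2 : (0 : ℝ) ≤ 2.1021 * (1 / 2.1021) ^ K := by positivity
      have h3 : (5 : ℝ) ≤ K := by exact_mod_cast h
      have h4 : ∑ k ∈ Finset.range K, (1 / 2.1021 : ℝ) ^ k ≤ 2.1021 / 1.1021 := by
        rw [le_div_iff₀ (by norm_num)]
        linarith
      have h5 : (2.1021 : ℝ) / 1.1021 ≤ 2.1021 - 1 + 5 / 5 := by norm_num
      push_cast
      linarith

end Pool.Agent.H67L
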