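import Pool.Agent.H67L.Asym
import Pool.Agent.H67L.Values

/-!
The final form.
-/

set_option autoImplicit false

namespace Pool.Agent.H67L

open Pool.Agent.H78.Sched Pool.Agent.H67S

theorem RL_le_golden (m : ℕ) (hm : 2 ≤ m) : RL m ≤ 1 + Real.goldenRatio - 2 / m :=
  RL_le_of hm (cond_golden m hm).1 (cond_golden m hm).2

theorem exact_all (m : ℕ) (hm : 2 ≤ m) :
    IsLeast {c : ℝ | 1 < c ∧ ∀ K : ℕ, ∑ k ∈ Finset.range K, (1 / c) ^ k ≤ c - 1 + K / m} (RL m) ∧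
    (∃ A : List (ℝ × ℝ) → Option (Fin m), ListScheduling m A ∧ Competitive m A (RL m)) ∧
    R m ≤ RL m ∧ RL m ≤ 1 + Real.goldenRatio - 2 / m :=
  ⟨RL_isLeast hm, RL_attained hm, R_le_RL hm, RL_le_golden m hm⟩

end Pool.Agent.H67L
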