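import Pool.Agent.H67L.Defs
import Pool.Agent.H67S.Adv

/-!
The adversary against List Scheduling: `K - 1` unit jobs which have to be rejected, sand of total
volume `m - K`, and a last unit job.
-/

set_option autoImplicit false

namespace Pool.Agent.H67L

open Pool.Agent.H78.Sched Pool.Agent.H69.Sched Pool.Agent.H67S

variable {m : ℕ}

/-- The optimum of an initial segment. -/
theorem opt_prefix {I J : List (ℝ × ℝ)} (hm : 0 < m) (h : Pos (I ++ J)) :
    opt m I ≤ opt m (I ++ J) := by
  have : Nonempty (Fin m) := ⟨⟨0, hm⟩⟩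
  have hI : Pos I := fun j hj => h j (List.mem_append_left _ hj)
  have hJ : Pos J := fun j hj => h j (List.mem_append_right _ hj)
  conv_rhs => unfold opt
  apply le_csInf
  · exact ⟨_, List.replicate (I ++ J).length none, by simp, rfl⟩
  · rintro x ⟨σ, hσ, rfl⟩
    have hlen : I.length ≤ σ.length := by
      rw [hσ, List.length_append]
      omega
    have h1 : (σ.take I.length).length = I.length := by
      rw [List.length_take]
      omega
    refine (opt_le (m := m) hI h1).trans ?_
    have h2 : σ = σ.take I.length ++ σ.drop I.length := (List.take_append_drop _ _).symm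
    have hl : ∀ i, load (I ++ J) σ i =
        load I (σ.take I.length) i + load J (σ.drop I.length) i := by
      intro i
      conv_lhs => rw [h2]
      exact load_append h1.symm i
    have hp : penalty (I ++ J) σ =
        penalty I (σ.take I.length) + penalty J (σ.drop I.length) := by
      conv_lhs => rw [h2]
      exact penalty_append h1.symm
    unfold cost
    have h3 : ⨆ i : Fin m, load I (σ.take I.length) i ≤ ⨆ i : Fin m, load (I ++ J) σ i := by
      apply ciSup_le
      intro i
      refine le_trans ?_ (le_ciSup (bddAbove_load (I ++ J) σ) i)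
      rw [hl]
      have := load_nonneg hJ (σ.drop I.length) i
      linarith
    have h4 := penalty_nonneg hJ (σ.drop I.length)
    rw [hp]
    linarith

/-- The concatenation of the first `k` chunks. -/
def cat (C : ℕ → List (ℝ × ℝ)) : ℕ → List (ℝ × ℝ)
  | 0 => []
  | k + 1 => cat C k ++ C k

/-- The assignment that puts chunk `k` on machine `f k`. -/
def asg (C : ℕ → List (ℝ × ℝ)) (f : ℕ → Fin m) : ℕ → List (Option (Fin m))
  | 0 => []
  | k + 1 => asg C f k ++ List.replicate (C k).length (some (f k))

theorem asg_length (C : ℕ → List (ℝ × ℝ)) (f : ℕ → Fin m) (k : ℕ) :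
    (asg C f k).length = (cat C k).length := by
  induction k with
  | zero => rfl
  | succ k ih => simp [asg, cat, ih]

theorem load_const (C : List (ℝ × ℝ)) (a i : Fin m) :
    load C (List.replicate C.length (some a)) i = if a = i then (C.map (·.1)).sum else 0 := by
  induction C with
  | nil => simp [load]
  | cons j C ih =>
    have h : load (j :: C) (List.replicate (j :: C).length (some a)) i =
        (if a = i then j.1 else 0) + load C (List.replicate C.length (some a)) i := by
      simp [load, List.replicate_succ]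
    rw [h, ih, List.map_cons, List.sum_cons]
    by_cases hai : a = i
    · simp [hai]
    · simp [hai]

theorem load_asg {C : ℕ → List (ℝ × ℝ)} (f : ℕ → Fin m) (n : ℕ)
    (hC : ∀ k < n, ((C k).map (·.1)).sum = 1) (i : Fin m) :
    load (cat C n) (asg C f n) i = ∑ k ∈ Finset.range n, if f k = i then (1 : ℝ) else 0 := by
  induction n with
  | zero => simp [cat, asg, load]
  | succ n ih =>
    rw [Finset.sum_range_succ, ← ih (fun k hk => hC k (by omega))]
    show load (cat C n ++ C n) (asg C f n ++ List.replicate (C n).length (some (f n))) i = _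
    rw [load_append (asg_length C f n).symm, load_const, hC n (by omega)]

theorem penalty_asg (C : ℕ → List (ℝ × ℝ)) (f : ℕ → Fin m) (n : ℕ) :
    penalty (cat C n) (asg C f n) = 0 := by
  apply penalty_of_all_some
  induction n with
  | zero => simp [asg]
  | succ n ih =>
    intro d hd
    have hd' : d ∈ asg C f n ++ List.replicate (C n).length (some (f n)) := hd
    rw [List.mem_append] at hd'
    rcases hd' with h | h
    · exact ih d h
    · rw [List.mem_replicate] at h
      rw [h.2]
      simp

/-- `m` chunks of volume one have optimum at most one. -/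
theorem opt_cat (hm : 0 < m) {C : ℕ → List (ℝ × ℝ)}
    (hC : ∀ k < m, ((C k).map (·.1)).sum = 1) (hpos : Pos (cat C m)) : opt m (cat C m) ≤ 1 := by
  set f : ℕ → Fin m := fun k => ⟨k % m, Nat.mod_lt _ hm⟩ with hf
  have h := opt_le_of hpos hm (T := 1) (q := 0) (asg C f m) (asg_length C f m) ?_
    (penalty_asg C f m).le
  · linarith
  · intro i
    rw [load_asg f m hC, ← Finset.sum_filter, Finset.sum_const, nsmul_eq_mul, mul_one]
    have h1 : (Finset.range m).filter (fun k => f k = i) ⊆ {i.val} := by
      intro k hk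
      rw [Finset.mem_filter, Finset.mem_range] at hk
      rw [Finset.mem_singleton]
      have := congrArg Fin.val hk.2
      simp only [hf] at this
      rwa [Nat.mod_eq_of_lt hk.1] at this
    have h2 := Finset.card_le_card h1
    rw [Finset.card_singleton] at h2
    exact_mod_cast h2

/-- A nearly balanced state. -/
def Bal (A : List (ℝ × ℝ) → Option (Fin m)) (I : List (ℝ × ℝ)) (s v P : ℝ) : Prop :=
  penalty I (run A I) = P ∧ (∑ i, load I (run A I) i) = v ∧
    ∀ i i', load I (run A I) i ≤ load I (run A I) i' + s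

theorem Bal.step {A : List (ℝ × ℝ) → Option (Fin m)} {c c' s v P Q : ℝ} {I : List (ℝ × ℝ)}
    (hm : 0 < m) (hLS : ListScheduling m A) (hA : Competitive m A c') (hc : c' < c) (hs : 0 < s)
    (hQ : c ≤ P + Q) (hQ0 : 0 < Q) (hI : Pos I) (hopt : opt m (I ++ [(s, Q)]) ≤ 1)
    (h : Bal A I s v P) : Bal A (I ++ [(s, Q)]) s (v + s) P := by
  obtain ⟨hP, hv, hb⟩ := h
  have hpos : Pos (I ++ [(s, Q)]) := hI.snoc hs hQ0
  have hne : A (I ++ [(s, Q)]) ≠ none := by
    intro hn
    have h1 := cost_lt hA hc hpos hopt one_pos ⟨0, hm⟩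
    rw [penalty_run_snoc, if_pos hn, hP] at h1
    have h2 := load_nonneg hpos (run A (I ++ [(s, Q)])) ⟨0, hm⟩
    linarith
  obtain ⟨i0, hi0⟩ := Option.ne_none_iff_exists'.1 hne
  have hmin := hLS I (s, Q) i0 hpos hi0
  have hload : ∀ i, load (I ++ [(s, Q)]) (run A (I ++ [(s, Q)])) i =
      load I (run A I) i + if i0 = i then s else 0 := by
    intro i
    rw [load_run_snoc, hi0]
    simp [Option.some.injEq]
  refine ⟨?_, ?_, ?_⟩
  · rw [penalty_run_snoc, if_neg hne, hP, add_zero]
  · simp only [hload, Finset.sum_add_distrib, hv]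
    simp
  · intro i i'
    rw [hload, hload]
    by_cases h1 : i0 = i
    · rw [if_pos h1, ← h1]
      have := hmin i'
      split_ifs <;> linarith
    · rw [if_neg h1]
      have := hb i i'
      split_ifs <;> linarith

theorem Bal.steps {A : List (ℝ × ℝ) → Option (Fin m)} {c c' s v P Q : ℝ} {I : List (ℝ × ℝ)}
    (hm : 0 < m) (hLS : ListScheduling m A) (hA : Competitive m A c') (hc : c' < c) (hs : 0 < s)
    (hQ : c ≤ P + Q) (hQ0 : 0 < Q) (hI : Pos I) (n : ℕ)
    (hopt : opt m (I ++ List.replicate n (s, Q)) ≤ 1)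
    (h : Bal A I s v P) : Bal A (I ++ List.replicate n (s, Q)) s (v + n * s) P := by
  induction n with
  | zero => simpa using h
  | succ n ih =>
    have hpos : Pos (I ++ List.replicate (n + 1) (s, Q)) := by
      intro j hj
      rw [List.mem_append, List.mem_replicate] at hj
      rcases hj with hj | ⟨_, rfl⟩
      · exact hI j hj
      · exact ⟨hs, hQ0⟩
    rw [List.replicate_succ', ← List.append_assoc] at hopt hpos ⊢
    have hopt' : opt m (I ++ List.replicate n (s, Q)) ≤ 1 :=
      (opt_prefix hm hpos).trans hopt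
    have h1 := Bal.step hm hLS hA hc hs hQ hQ0
      (fun j hj => hpos j (List.mem_append_left _ hj)) hopt (ih hopt')
    have : v + ((n + 1 : ℕ) : ℝ) * s = v + n * s + s := by push_cast; ring
    rw [this]
    exact h1

theorem load_zero_of_all_none {A : List (ℝ × ℝ) → Option (Fin m)} {L : List (ℝ × ℝ)}
    (h : rc A L = L.length) (i : Fin m) : load L (run A L) i = 0 := by
  have h1 : ∀ d ∈ run A L, d = none := by
    unfold rc at h
    have h2 : (run A L).count none = (run A L).length := by rw [h, length_run]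
    exact fun d hd => (List.count_eq_length.1 h2 d hd).symm
  unfold load
  apply List.sum_eq_zero
  intro x hx
  rw [List.mem_iff_getElem] at hx
  obtain ⟨n, hn, rfl⟩ := hx
  rw [List.getElem_zipWith, if_neg]
  rw [h1 _ (List.getElem_mem _)]
  simp

/-- The chunks of the adversary. -/
noncomputable def chunk (m K n : ℕ) (c Q : ℝ) (k : ℕ) : List (ℝ × ℝ) :=
  if k < K - 1 then [(1, (c ^ (k + 1))⁻¹)]
  else if k < m - 1 then List.replicate n (1 / (n : ℝ), Q) else [(1, Q)]

theorem cat_phase (m K n : ℕ) (c Q : ℝ) (k : ℕ) (hk : k ≤ K - 1) :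
    cat (chunk m K n c Q) k = phase c k := by
  induction k with
  | zero => simp [cat, phase]
  | succ k ih =>
    show cat (chunk m K n c Q) k ++ chunk m K n c Q k = _
    rw [ih (by omega), phase_succ]
    unfold chunk
    rw [if_pos (by omega)]

theorem cat_sand (m K n : ℕ) (hK : 1 ≤ K) (c Q : ℝ) (b : ℕ) (hb : b ≤ m - K) :
    cat (chunk m K n c Q) (K - 1 + b) =
      phase c (K - 1) ++ List.replicate (b * n) (1 / (n : ℝ), Q) := by
  induction b with
  | zero => simp [cat_phase m K n c Q (K - 1) le_rfl]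
  | succ b ih =>
    show cat (chunk m K n c Q) (K - 1 + b) ++ chunk m K n c Q (K - 1 + b) = _
    rw [ih (by omega)]
    unfold chunk
    rw [if_neg (by omega), if_pos (by omega), List.append_assoc, List.replicate_append_replicate]
    congr 2
    ring

theorem cat_all (m K n : ℕ) (hK : 1 ≤ K) (hKm : K ≤ m) (c Q : ℝ) :
    cat (chunk m K n c Q) m =
      phase c (K - 1) ++ List.replicate ((m - K) * n) (1 / (n : ℝ), Q) ++ [(1, Q)] := by
  obtain ⟨m', rfl⟩ : ∃ m', m = m' + 1 := ⟨m - 1, by omega⟩
  show cat (chunk (m' + 1) K n c Q) m' ++ chunk (m' + 1) K n c Q m' = _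
  have h1 : m' = K - 1 + (m' + 1 - K) := by omega
  have h2 := cat_sand (m' + 1) K n hK c Q (m' + 1 - K) le_rfl
  rw [← h1] at h2
  rw [h2]
  unfold chunk
  rw [if_neg (by omega), if_neg (by omega)]

theorem chunk_sum {m K n : ℕ} (hn : 0 < n) (c Q : ℝ) (k : ℕ) :
    ((chunk m K n c Q k).map (·.1)).sum = 1 := by
  have hn0 : (n : ℝ) ≠ 0 := by exact_mod_cast hn.ne'
  unfold chunk
  split_ifs
  · simp
  · simp [hn0]
  · simp

/-- The basic inequality. -/
theorem lower_aux {A : List (ℝ × ℝ) → Option (Fin m)} {c c' : ℝ} (hLS : ListScheduling m A)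
    (hA : Competitive m A c') (hc : c' < c) (hc1 : 1 < c) {K : ℕ} (hK : 1 ≤ K) (hKm : K ≤ m)
    {n : ℕ} (hn : 0 < n) :
    2 + psum c (K - 1) - K / m - 1 / n < c := by
  have hm : 0 < m := by omega
  have hm0 : (0 : ℝ) < m := by exact_mod_cast hm
  have hn0 : (0 : ℝ) < n := by exact_mod_cast hn
  set Q : ℝ := c with hQdef
  have hQ0 : 0 < Q := by linarith
  have hs : (0 : ℝ) < 1 / (n : ℝ) := by positivity
  obtain ⟨hrc, hrx⟩ := phase_rej hA.unit hc1 hc (K - 1)
  have hposP : Pos (phase c (K - 1)) := (unitJobs_phase hc1 (K - 1)).pos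
  have hPnn : 0 ≤ psum c (K - 1) := by
    rw [← hrx]; exact rx_nonneg (unitJobs_phase hc1 (K - 1))
  set N := (m - K) * n with hN
  have hpos2 : Pos (phase c (K - 1) ++ List.replicate N (1 / (n : ℝ), Q)) := by
    intro j hj
    rw [List.mem_append, List.mem_replicate] at hj
    rcases hj with hj | ⟨_, rfl⟩
    · exact hposP j hj
    · exact ⟨hs, hQ0⟩
  have hpos3 : Pos (phase c (K - 1) ++ List.replicate N (1 / (n : ℝ), Q) ++ [(1, Q)]) :=
    hpos2.snoc one_pos hQ0
  have hopt3 : opt m (phase c (K - 1) ++ List.replicate N (1 / (n : ℝ), Q) ++ [(1, Q)]) ≤ 1 := by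
    have h1 := opt_cat hm (C := chunk m K n c Q) (fun k _ => chunk_sum hn c Q k)
    rw [cat_all m K n hK hKm c Q] at h1
    exact h1 hpos3
  have hopt2 : opt m (phase c (K - 1) ++ List.replicate N (1 / (n : ℝ), Q)) ≤ 1 :=
    (opt_prefix hm hpos3).trans hopt3
  have hbal0 : Bal A (phase c (K - 1)) (1 / (n : ℝ)) 0 (psum c (K - 1)) := by
    have hz := fun i => load_zero_of_all_none (A := A) (L := phase c (K - 1))
      (by rw [hrc, phase_length]) i
    refine ⟨hrx, by simp [hz], fun i i' => ?_⟩
    rw [hz, hz]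
    linarith
  obtain ⟨hP, hv, hb⟩ := Bal.steps hm hLS hA hc hs (by linarith) hQ0 hposP N hopt2 hbal0
  -- every load is large
  have hv' : (0 : ℝ) + N * (1 / (n : ℝ)) = m - K := by
    rw [hN]
    push_cast [Nat.cast_sub hKm]
    field_simp
    ring
  rw [hv'] at hv
  set I2 := phase c (K - 1) ++ List.replicate N (1 / (n : ℝ), Q) with hI2
  have hlow : ∀ i, 1 - (K : ℝ) / m - 1 / n ≤ load I2 (run A I2) i := by
    intro i
    have h1 : (m : ℝ) - K ≤ m * (load I2 (run A I2) i + 1 / n) := by
      rw [← hv]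
      calc ∑ i', load I2 (run A I2) i' ≤ ∑ _i' : Fin m, (load I2 (run A I2) i + 1 / n) :=
            Finset.sum_le_sum (fun i' _ => hb i' i)
        _ = m * (load I2 (run A I2) i + 1 / n) := by
            rw [Finset.sum_const, Finset.card_univ, Fintype.card_fin, nsmul_eq_mul]
    have h2 : (m : ℝ) * (1 - K / m) = m - K := by field_simp
    have h3 : 1 - (K : ℝ) / m ≤ load I2 (run A I2) i + 1 / n := by
      rw [← h2] at h1
      exact le_of_mul_le_mul_left h1 hm0
    linarith
  -- the last job
  by_cases hlast : A (I2 ++ [(1, Q)]) = none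
  · exfalso
    have h1 := cost_lt hA hc hpos3 hopt3 one_pos ⟨0, hm⟩
    rw [penalty_run_snoc, if_pos hlast, hP] at h1
    have h2 := load_nonneg hpos3 (run A (I2 ++ [(1, Q)])) ⟨0, hm⟩
    linarith
  · obtain ⟨i, hi⟩ := Option.ne_none_iff_exists'.1 hlast
    have h1 := cost_lt hA hc hpos3 hopt3 one_pos i
    rw [load_run_snoc, penalty_run_snoc, if_pos hi, if_neg hlast, hP] at h1
    have h2 := hlow i
    have h3 : (((1 : ℝ), Q) : ℝ × ℝ).1 = 1 := rfl
    rw [h3] at h1
    linarith

theorem geom_psum {c : ℝ} {K : ℕ} (hK : 1 ≤ K) :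
    ∑ k ∈ Finset.range K, (1 / c) ^ k = 1 + psum c (K - 1) := by
  obtain ⟨K, rfl⟩ : ∃ K', K = K' + 1 := ⟨K - 1, by omega⟩
  rw [Nat.add_sub_cancel]
  induction K with
  | zero => simp [psum, phase]
  | succ K ih =>
    rw [Finset.sum_range_succ, ih (by omega), psum_succ, one_div, inv_pow]
    ring

/-- The lower bound for List Scheduling. -/
theorem lower {A : List (ℝ × ℝ) → Option (Fin m)} {c c' : ℝ} (hLS : ListScheduling m A)
    (hA : Competitive m A c') (hc : c' < c) (hc1 : 1 < c) {K : ℕ} (hK : 1 ≤ K) (hKm : K ≤ m) :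
    ∑ k ∈ Finset.range K, (1 / c) ^ k ≤ c - 1 + K / m := by
  rw [geom_psum hK]
  have h1 : 2 + psum c (K - 1) - K / m ≤ c := by
    apply le_of_forall_pos_le_add
    intro ε hε
    obtain ⟨n, hn⟩ := exists_nat_one_div_lt hε
    have h2 := lower_aux hLS hA hc hc1 hK hKm (Nat.succ_pos n)
    push_cast at h2
    linarith
  linarith

end Pool.Agent.H67L
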